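import Pool.Agent.H28.MCL.Targets

/-!
# Board mlc_modules, row LGC: the logarithmic sum over one class
-/

set_option autoImplicit false

open Pool.Agent.H28.MCL Finset Filter

namespace Pool.Agent.H56.MCL

theorem lgc_gap (h o x y n : ℕ) (hy : y ≡ o [MOD h]) (hn : n ≡ o [MOD h]) (h2 : n ≤ y) :
    n = y ∨ n + h ≤ y := by
  have h3 : n ≡ y [MOD h] := hn.trans hy.symm
  have h4 : h ∣ y - n := (Nat.modEq_iff_dvd' h2).1 h3
  rcases Nat.eq_zero_or_pos (y - n) with h5 | h5
  · left
    omega
  · right
    have h6 := Nat.le_of_dvd h5 h4
    omega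

theorem lgc : T_LGC := by
  intro h o x y hh hx
  have hh' : (0 : ℝ) < h := by exact_mod_cast hh
  have hx' : (0 : ℝ) < x := by exact_mod_cast hx
  induction y using Nat.strong_induction_on with
  | _ y ih =>
    intro hxy
    have hy : 0 < y := by omega
    have hy' : (0 : ℝ) < y := by exact_mod_cast hy
    have hxy' : (x : ℝ) ≤ y := by exact_mod_cast hxy
    have hlog : 0 ≤ Real.log ((y : ℝ) / x) / h := by
      have h1 : 1 ≤ (y : ℝ) / x := (one_le_div hx').2 hxy'
      exact div_nonneg (Real.log_nonneg h1) hh'.le
    by_cases hyo : y ≡ o [MOD h]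
    · by_cases hc : x + h ≤ y
      · have e1 : (Finset.Icc x y).filter (fun n => n ≡ o [MOD h]) =
            insert y ((Finset.Icc x (y - h)).filter (fun n => n ≡ o [MOD h])) := by
          ext n
          simp only [Finset.mem_filter, Finset.mem_Icc, Finset.mem_insert]
          constructor
          · rintro ⟨⟨h1, h2⟩, h3⟩
            rcases lgc_gap h o x y n hyo h3 h2 with h4 | h4
            · exact Or.inl h4
            · exact Or.inr ⟨⟨h1, by omega⟩, h3⟩
          · rintro (h1 | ⟨⟨h1, h2⟩, h3⟩)
            · subst h1
              exact ⟨⟨hxy, le_rfl⟩, hyo⟩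
            · exact ⟨⟨h1, by omega⟩, h3⟩
        have hni : y ∉ (Finset.Icc x (y - h)).filter (fun n => n ≡ o [MOD h]) := by
          simp only [Finset.mem_filter, Finset.mem_Icc]
          rintro ⟨⟨_, h2⟩, _⟩
          omega
        rw [e1, Finset.sum_insert hni]
        have h5 := ih (y - h) (by omega) (by omega)
        have hyh : (0 : ℝ) < ((y - h : ℕ) : ℝ) := by
          have : 0 < y - h := by omega
          exact_mod_cast this
        have e2 : ((y - h : ℕ) : ℝ) = (y : ℝ) - h := by
          rw [Nat.cast_sub (by omega)]
        have h6 : (h : ℝ) / y ≤ Real.log ((y : ℝ) / ((y - h : ℕ) : ℝ)) := by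
          have h7 := Real.one_sub_inv_le_log_of_pos (div_pos hy' hyh)
          have e3 : 1 - ((y : ℝ) / ((y - h : ℕ) : ℝ))⁻¹ = (h : ℝ) / y := by
            rw [inv_div, e2]
            field_simp
            ring
          rwa [e3] at h7
        have h8 : Real.log ((y : ℝ) / x) =
            Real.log ((y : ℝ) / ((y - h : ℕ) : ℝ)) + Real.log (((y - h : ℕ) : ℝ) / x) := by
          rw [← Real.log_mul (div_pos hy' hyh).ne' (div_pos hyh hx').ne']
          congr 1
          field_simp
        have h9 : (1 : ℝ) / y ≤ Real.log ((y : ℝ) / ((y - h : ℕ) : ℝ)) / h := by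
          rw [le_div_iff₀ hh']
          calc (1 : ℝ) / y * h = (h : ℝ) / y := by ring
            _ ≤ _ := h6
        calc (1 : ℝ) / y + ∑ n ∈ (Finset.Icc x (y - h)).filter (fun n => n ≡ o [MOD h]),
              (1 : ℝ) / n
            ≤ Real.log ((y : ℝ) / ((y - h : ℕ) : ℝ)) / h +
              (1 + Real.log (((y - h : ℕ) : ℝ) / x) / h) := add_le_add h9 h5
          _ = 1 + Real.log ((y : ℝ) / x) / h := by
              rw [h8]
              ring
      · have e1 : (Finset.Icc x y).filter (fun n => n ≡ o [MOD h]) ⊆ {y} := by
          intro n hn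
          simp only [Finset.mem_filter, Finset.mem_Icc] at hn
          rw [Finset.mem_singleton]
          rcases lgc_gap h o x y n hyo hn.2 hn.1.2 with h4 | h4
          · exact h4
          · omega
        have h5 : ∑ n ∈ (Finset.Icc x y).filter (fun n => n ≡ o [MOD h]), (1 : ℝ) / n ≤
            ∑ n ∈ ({y} : Finset ℕ), (1 : ℝ) / n :=
          Finset.sum_le_sum_of_subset_of_nonneg e1 (fun i _ _ => by positivity)
        rw [Finset.sum_singleton] at h5
        have h6 : (1 : ℝ) / y ≤ 1 := by
          rw [div_le_one hy']
          exact_mod_cast hy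
        linarith
    · rcases Nat.lt_or_ge x y with hc | hc
      · have e1 : (Finset.Icc x y).filter (fun n => n ≡ o [MOD h]) =
            (Finset.Icc x (y - 1)).filter (fun n => n ≡ o [MOD h]) := by
          ext n
          simp only [Finset.mem_filter, Finset.mem_Icc]
          constructor
          · rintro ⟨⟨h1, h2⟩, h3⟩
            refine ⟨⟨h1, ?_⟩, h3⟩
            have h4 : n ≠ y := by
              intro e
              subst e
              exact hyo h3
            omega
          · rintro ⟨⟨h1, h2⟩, h3⟩
            exact ⟨⟨h1, by omega⟩, h3⟩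
        rw [e1]
        have h5 := ih (y - 1) (by omega) (by omega)
        refine h5.trans ?_
        have h6 : (0 : ℝ) < ((y - 1 : ℕ) : ℝ) := by
          have : 0 < y - 1 := by omega
          exact_mod_cast this
        have h7 : ((y - 1 : ℕ) : ℝ) ≤ y := by
          have : y - 1 ≤ y := by omega
          exact_mod_cast this
        have h8 : Real.log (((y - 1 : ℕ) : ℝ) / x) ≤ Real.log ((y : ℝ) / x) := by
          apply Real.log_le_log (div_pos h6 hx')
          gcongr
        have h9 : Real.log (((y - 1 : ℕ) : ℝ) / x) / h ≤ Real.log ((y : ℝ) / x) / h := by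
          gcongr
        linarith
      · have hxe : x = y := le_antisymm hxy hc
        have e1 : (Finset.Icc x y).filter (fun n => n ≡ o [MOD h]) = ∅ := by
          rw [Finset.filter_eq_empty_iff]
          intro n hn h3
          rw [Finset.mem_Icc] at hn
          have : n = y := by omega
          rw [this] at h3
          exact hyo h3
        rw [e1, Finset.sum_empty]
        linarith

end Pool.Agent.H56.MCL
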